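import Mathlib
import Pool.Agent.H6.Flow

/-! Chromatic number of small-intersection graphs of set systems: polynomial growth. -/

namespace Pool.Agent.Results.MP_3a192b_co.Growth

open Finset Pool.Agent.H6.Flow

/-- The graph `G(𝒜, ε)`: distinct indices are adjacent iff the sets meet in `< ε n` points. -/
def G {n m : ℕ} (A : Fin m → Finset (Fin n)) (ε : ℝ) : SimpleGraph (Fin m) where
  Adj i j := i ≠ j ∧ (((A i ∩ A j).card : ℝ) < ε * n)
  symm := ⟨fun i j h => ⟨h.1.symm, by rw [inter_comm]; exact h.2⟩⟩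
  loopless := ⟨fun _ h => h.1 rfl⟩

open Classical in
/-- `χ*(n,m,c,ε)`: the largest chromatic number of `G(𝒜, ε)` over all families of `m` subsets
of an `n`-set, each of size `> c n`. -/
noncomputable def chiStar (n m : ℕ) (c ε : ℝ) : ℕ :=
  (univ.filter (fun A : Fin m → Finset (Fin n) => ∀ k, c * n < ((A k).card : ℝ))).sup
    (fun A => (G A ε).chromaticNumber.toNat)

theorem card_pi {n t : ℕ} (B : Finset (Fin n)) :
    ∑ x : Fin t → Fin n, (if ∀ j, x j ∈ B then (1 : ℝ) else 0) = (B.card : ℝ) ^ t := by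
  rw [← sum_filter, sum_const, nsmul_eq_mul, mul_one]
  have : (univ.filter (fun x : Fin t → Fin n => ∀ j, x j ∈ B)) =
      Fintype.piFinset (fun _ => B) := by
    ext x; simp
  rw [this, Fintype.card_piFinset]
  simp

open Classical in
theorem drc {n m : ℕ} (A : Fin m → Finset (Fin n)) (c ε : ℝ) (hc : 0 < c) (hε : 0 < ε)
    (hA : ∀ k, c * n < ((A k).card : ℝ)) (P : Finset (Fin m)) (hP : P.Nonempty) (t : ℕ)
    (ht : 2 * P.card * ε ^ t ≤ c ^ t) :
    ∃ I ⊆ P, (∀ i ∈ I, ∀ j ∈ I, ¬ (G A ε).Adj i j) ∧ (P.card : ℝ) * c ^ t / 2 ≤ I.card := by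
  obtain ⟨k0, _⟩ := hP
  have hn : 0 < n := by
    rcases Nat.eq_zero_or_pos n with rfl | h
    · have := hA k0
      have h2 : (A k0).card = 0 := by
        have := card_le_univ (A k0); simpa using this
      simp [h2] at this
    · exact h
  have hnR : (0 : ℝ) < n := by exact_mod_cast hn
  set U : (Fin t → Fin n) → Finset (Fin m) := fun x => P.filter (fun k => ∀ j, x j ∈ A k) with hU
  set E : Finset (Fin m × Fin m) := (P ×ˢ P).filter (fun p => (G A ε).Adj p.1 p.2) with hE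
  set B : (Fin t → Fin n) → Finset (Fin m × Fin m) :=
    fun x => E.filter (fun p => ∀ j, x j ∈ A p.1 ∩ A p.2) with hB
  have h1 : (P.card : ℝ) * (c * n) ^ t ≤ ∑ x, ((U x).card : ℝ) := by
    have : ∑ x, ((U x).card : ℝ) = ∑ k ∈ P, ((A k).card : ℝ) ^ t := by
      simp only [hU, card_filter, Nat.cast_sum, Nat.cast_ite, Nat.cast_one, Nat.cast_zero]
      rw [sum_comm]
      exact sum_congr rfl fun k _ => card_pi (A k)
    rw [this, ← nsmul_eq_mul, ← sum_const]
    exact sum_le_sum fun k _ => pow_le_pow_left₀ (by positivity) (hA k).le t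
  have h2 : ∑ x, ((B x).card : ℝ) ≤ (P.card : ℝ) ^ 2 * (ε * n) ^ t := by
    have : ∑ x, ((B x).card : ℝ) = ∑ p ∈ E, ((A p.1 ∩ A p.2).card : ℝ) ^ t := by
      simp only [hB, card_filter, Nat.cast_sum, Nat.cast_ite, Nat.cast_one, Nat.cast_zero]
      rw [sum_comm]
      exact sum_congr rfl fun p _ => card_pi (A p.1 ∩ A p.2)
    rw [this]
    calc _ ≤ ∑ _p ∈ E, (ε * n) ^ t := sum_le_sum fun p hp =>
          pow_le_pow_left₀ (by positivity) (mem_filter.1 hp).2.2.le t
      _ = E.card * (ε * n) ^ t := by rw [sum_const, nsmul_eq_mul]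
      _ ≤ _ := by
          gcongr
          have : E.card ≤ (P ×ˢ P).card := card_filter_le _ _
          rw [card_product, ← sq] at this
          exact_mod_cast this
  have h3 : ∑ _x : Fin t → Fin n, (P.card : ℝ) * c ^ t / 2 ≤
      ∑ x, (((U x).card : ℝ) - (B x).card) := by
    rw [sum_sub_distrib, sum_const, nsmul_eq_mul, card_univ, Fintype.card_fun, Fintype.card_fin,
      Fintype.card_fin]
    push_cast
    rw [mul_pow] at h1 h2
    have : (P.card : ℝ) * (n : ℝ) ^ t * (2 * P.card * ε ^ t) ≤ (P.card : ℝ) * (n : ℝ) ^ t * c ^ t := by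
      gcongr
    nlinarith
  have : Nonempty (Fin t → Fin n) := ⟨fun _ => ⟨0, hn⟩⟩
  obtain ⟨x, _, hx⟩ := exists_le_of_sum_le univ_nonempty h3
  refine ⟨U x \ (B x).image Prod.fst, sdiff_subset.trans (filter_subset _ _), ?_, hx.trans ?_⟩
  · intro i hi j hj hij
    obtain ⟨a1, a2⟩ := mem_sdiff.1 hi
    obtain ⟨b1, _⟩ := mem_sdiff.1 hj
    obtain ⟨a3, a4⟩ := mem_filter.1 a1
    obtain ⟨b3, b4⟩ := mem_filter.1 b1
    exact a2 (mem_image.2 ⟨(i, j), mem_filter.2 ⟨mem_filter.2 ⟨mem_product.2 ⟨a3, b3⟩, hij⟩,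
      fun l => mem_inter.2 ⟨a4 l, b4 l⟩⟩, rfl⟩)
  · have a1 := le_card_sdiff ((B x).image Prod.fst) (U x)
    have a2 := card_image_le (s := B x) (f := Prod.fst)
    have : (U x).card ≤ (U x \ (B x).image Prod.fst).card + (B x).card := by omega
    have : ((U x).card : ℝ) ≤ (U x \ (B x).image Prod.fst).card + (B x).card := by
      exact_mod_cast this
    linarith

theorem indep {n m : ℕ} (A : Fin m → Finset (Fin n)) (c ε : ℝ) (hc : 0 < c) (hc1 : c < 1)
    (hε : 0 < ε) (hεc : ε ≤ c ^ 2) (hA : ∀ k, c * n < ((A k).card : ℝ)) (P : Finset (Fin m))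
    (hP : P.Nonempty) :
    ∃ I ⊆ P, (∀ i ∈ I, ∀ j ∈ I, ¬ (G A ε).Adj i j) ∧
      c / 4 * P.card / (P.card : ℝ) ^ (Real.log (1 / c) / Real.log (c / ε)) ≤ I.card := by
  have hp : (1 : ℝ) ≤ P.card := by exact_mod_cast hP.card_pos
  have h1 : 1 < c / ε := by rw [one_lt_div hε]; nlinarith
  have h2 : 0 < Real.log (c / ε) := Real.log_pos h1
  have h3 : 1 < 1 / c := by rw [one_lt_div hc]; exact hc1
  have h4 : 0 < Real.log (1 / c) := Real.log_pos h3
  have h5 : Real.log (1 / c) ≤ Real.log (c / ε) := by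
    refine Real.log_le_log (by positivity) ?_
    rw [div_le_div_iff₀ hc hε]; nlinarith
  set γ := Real.log (1 / c) / Real.log (c / ε) with hγ
  have hγ1 : γ ≤ 1 := by rw [hγ, div_le_one h2]; exact h5
  set y := Real.log (2 * P.card) / Real.log (c / ε) with hy
  have hy0 : 0 ≤ y := div_nonneg (Real.log_nonneg (by linarith)) h2.le
  have ht : 2 * P.card * ε ^ ⌈y⌉₊ ≤ c ^ ⌈y⌉₊ := by
    have a1 : 2 * (P.card : ℝ) ≤ (c / ε) ^ ⌈y⌉₊ := by
      rw [← Real.rpow_natCast]
      calc 2 * (P.card : ℝ) = (c / ε) ^ y := by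
            rw [Real.rpow_def_of_pos (by positivity), hy, mul_div_cancel₀ _ h2.ne',
              Real.exp_log (by linarith)]
        _ ≤ _ := Real.rpow_le_rpow_of_exponent_le h1.le (Nat.le_ceil y)
    rwa [div_pow, le_div_iff₀ (by positivity)] at a1
  obtain ⟨I, i1, i2, i3⟩ := drc A c ε hc hε hA P hP _ ht
  refine ⟨I, i1, i2, le_trans ?_ i3⟩
  have a1 : c ^ (y + 1) ≤ c ^ ⌈y⌉₊ := by
    rw [← Real.rpow_natCast]
    exact Real.rpow_le_rpow_of_exponent_ge hc hc1.le (Nat.ceil_lt_add_one hy0).le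
  have a2 : c ^ y = 1 / (2 * (P.card : ℝ)) ^ γ := by
    rw [Real.rpow_def_of_pos hc, Real.rpow_def_of_pos (by linarith), one_div, ← Real.exp_neg]
    congr 1
    rw [hy, hγ, one_div c, Real.log_inv]; ring
  have a3 : (2 * (P.card : ℝ)) ^ γ ≤ 2 * (P.card : ℝ) ^ γ := by
    rw [Real.mul_rpow (by norm_num) (by linarith)]
    gcongr
    calc (2 : ℝ) ^ γ ≤ 2 ^ (1 : ℝ) := Real.rpow_le_rpow_of_exponent_le (by norm_num) hγ1
      _ = 2 := Real.rpow_one 2
  have a4 : 0 < (P.card : ℝ) ^ γ := by positivity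
  rw [Real.rpow_add hc, Real.rpow_one, a2] at a1
  have a5 : 1 / (2 * (P.card : ℝ) ^ γ) * c ≤ c ^ ⌈y⌉₊ := by
    refine le_trans ?_ a1
    gcongr
  calc _ = P.card * (1 / (2 * (P.card : ℝ) ^ γ) * c) / 2 := by field_simp; norm_num
    _ ≤ _ := by gcongr

theorem greedy {V : Type*} [DecidableEq V] (H : SimpleGraph V) (κ γ : ℝ) (hκ : 0 < κ)
    (hγ : 0 < γ) (hγ1 : γ ≤ 1)
    (h : ∀ P : Finset V, P.Nonempty → ∃ I ⊆ P, (∀ i ∈ I, ∀ j ∈ I, ¬ H.Adj i j) ∧
      κ * P.card / (P.card : ℝ) ^ γ ≤ I.card) :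
    ∀ (p : ℕ) (P : Finset V), P.card = p → ∃ col : V → ℕ,
      (∀ v ∈ P, (col v : ℝ) + 1 ≤ 1 / (γ * κ) * (P.card : ℝ) ^ γ) ∧
      ∀ i ∈ P, ∀ j ∈ P, H.Adj i j → col i ≠ col j := by
  intro p
  induction p using Nat.strong_induction_on with
  | _ p ih =>
    intro P hp
    rcases P.eq_empty_or_nonempty with rfl | hP
    · exact ⟨fun _ => 0, by simp, by simp⟩
    obtain ⟨I, i1, i2, i3⟩ := h P hP
    have hp0 : (0 : ℝ) < P.card := by exact_mod_cast hP.card_pos
    have hpγ : 0 < (P.card : ℝ) ^ γ := by positivity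
    have hI : (0 : ℝ) < I.card := lt_of_lt_of_le (by positivity) i3
    have hI' : 0 < I.card := by exact_mod_cast hI
    have hc := card_sdiff_add_card_eq_card i1
    obtain ⟨col, c1, c2⟩ := ih (P \ I).card (by omega) (P \ I) rfl
    have key : 1 / (γ * κ) * ((P \ I).card : ℝ) ^ γ + 1 ≤ 1 / (γ * κ) * (P.card : ℝ) ^ γ := by
      have e1 : ((P \ I).card : ℝ) = P.card * (1 + -(I.card / P.card)) := by
        have : ((P \ I).card : ℝ) + I.card = P.card := by exact_mod_cast hc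
        field_simp; linarith
      have e2 : -1 ≤ -((I.card : ℝ) / P.card) := by
        rw [neg_le_neg_iff, div_le_one hp0]; exact_mod_cast card_le_card i1
      have e3 := rpow_one_add_le_one_add_mul_self e2 hγ.le hγ1
      rw [e1, Real.mul_rpow hp0.le (by linarith)]
      have e4 : κ ≤ (P.card : ℝ) ^ γ * (I.card / P.card) := by
        rw [div_le_iff₀ hpγ] at i3
        rw [← mul_div_assoc, le_div_iff₀ hp0]; linarith
      have e5 : (P.card : ℝ) ^ γ * (1 + -((I.card : ℝ) / P.card)) ^ γ + γ * κ ≤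
          (P.card : ℝ) ^ γ := by
        have := mul_le_mul_of_nonneg_left e3 hpγ.le
        nlinarith
      have e6 : (1 : ℝ) = 1 / (γ * κ) * (γ * κ) := by field_simp
      have := mul_le_mul_of_nonneg_left e5 (by positivity : 0 ≤ 1 / (γ * κ))
      linarith
    refine ⟨fun v => if v ∈ I then 0 else col v + 1, fun v hv => ?_, fun i hi j hj hij => ?_⟩
    · beta_reduce
      split_ifs with hvI
      · have : 0 ≤ 1 / (γ * κ) * ((P \ I).card : ℝ) ^ γ := by positivity
        push_cast; linarith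
      · have := c1 v (mem_sdiff.2 ⟨hv, hvI⟩)
        push_cast; linarith
    · by_cases a1 : i ∈ I <;> by_cases a2 : j ∈ I
      · exact absurd hij (i2 i a1 j a2)
      · simp [a1, a2]
      · simp [a1, a2]
      · simpa [a1, a2] using c2 i (mem_sdiff.2 ⟨hi, a1⟩) j (mem_sdiff.2 ⟨hj, a2⟩) hij

theorem upper (c ε : ℝ) (hc : 0 < c) (hc1 : c < 1) (hε : 0 < ε) (hεc : ε ≤ c ^ 2) :
    ∃ K : ℝ, 0 < K ∧ ∀ n m : ℕ,
      (chiStar n m c ε : ℝ) ≤ K * (m : ℝ) ^ (Real.log (1 / c) / Real.log (c / ε)) := by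
  classical
  have h1 : 1 < c / ε := by rw [one_lt_div hε]; nlinarith
  have h2 : 0 < Real.log (c / ε) := Real.log_pos h1
  have h3 : 1 < 1 / c := by rw [one_lt_div hc]; exact hc1
  have h4 : 0 < Real.log (1 / c) := Real.log_pos h3
  have h5 : Real.log (1 / c) ≤ Real.log (c / ε) := by
    refine Real.log_le_log (by positivity) ?_
    rw [div_le_div_iff₀ hc hε]; nlinarith
  set γ := Real.log (1 / c) / Real.log (c / ε) with hγ
  have hγ1 : γ ≤ 1 := by rw [hγ, div_le_one h2]; exact h5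
  have hγ0 : 0 < γ := div_pos h4 h2
  refine ⟨1 / (γ * (c / 4)), by positivity, fun n m => ?_⟩
  set b := 1 / (γ * (c / 4)) * (m : ℝ) ^ γ with hb
  have hb0 : 0 ≤ b := by positivity
  rw [← Nat.le_floor_iff hb0]
  refine Finset.sup_le fun A hA => ?_
  obtain ⟨col, c1, c2⟩ := greedy (G A ε) (c / 4) γ (by positivity) hγ0 hγ1
    (indep A c ε hc hc1 hε hεc (mem_filter.1 hA).2) _ univ rfl
  rw [card_univ, Fintype.card_fin] at c1
  have : (G A ε).Colorable ⌊b⌋₊ := by
    refine ⟨SimpleGraph.Coloring.mk (fun v => ⟨col v, ?_⟩) ?_⟩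
    · have := c1 v (mem_univ _)
      exact Nat.lt_of_succ_le (Nat.le_floor (by push_cast; exact this))
    · intro i j hij h
      exact c2 i (mem_univ _) j (mem_univ _) hij (congrArg Fin.val h)
  exact ENat.toNat_le_of_le_natCast this.chromaticNumber_le

theorem kneser {α : Type*} [DecidableEq α] (X : Finset α) (k : ℕ) (hk : 0 < k)
    (hX : X.card = 2 * k) (ε : ℝ) (hε : 0 < ε) (hε1 : ε ≤ 1) (I : Finset (Finset α))
    (hI : I ⊆ powersetCard k X) (h : ∀ u ∈ I, ∀ v ∈ I, ε * k ≤ ((u ∩ v).card : ℝ)) :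
    (I.card : ℝ) ≤ ((2 * k).choose k : ℝ) * Real.exp (-(ε ^ 2 * k / 128)) := by
  rcases I.eq_empty_or_nonempty with rfl | hne
  · simp only [card_empty, Nat.cast_zero]; positivity
  have hkR : (0 : ℝ) < k := by exact_mod_cast hk
  set g : Finset α → ℕ := fun S => I.inf' hne (fun T => (S \ T).card) with hg
  have glip : ∀ (S S' : Finset α) (i : α), S ⊆ insert i S' → g S ≤ g S' + 1 := by
    intro S S' i hS
    obtain ⟨T, hT, e⟩ := exists_mem_eq_inf' hne (fun T => (S' \ T).card)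
    have a1 : g S ≤ (S \ T).card := inf'_le _ hT
    have a2 : S \ T ⊆ insert i (S' \ T) := by
      intro a ha
      obtain ⟨b1, b2⟩ := mem_sdiff.1 ha
      rcases mem_insert.1 (hS b1) with rfl | b3
      · exact mem_insert_self _ _
      · exact mem_insert_of_mem (mem_sdiff.2 ⟨b3, b2⟩)
    have a3 := (card_le_card a2).trans (card_insert_le _ _)
    have a4 : g S' = (S' \ T).card := e
    omega
  have hlip : ∀ (S : Finset α) (i j : α), |(g S : ℝ) - g (insert j (S.erase i))| ≤ 1 := by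
    intro S i j
    have a1 := glip S (insert j (S.erase i)) i (by
      intro a ha
      by_cases hai : a = i
      · exact hai ▸ mem_insert_self _ _
      · exact mem_insert_of_mem (mem_insert_of_mem (mem_erase.2 ⟨hai, ha⟩)))
    have a2 := glip (insert j (S.erase i)) S j (insert_subset_insert _ (erase_subset _ _))
    have b1 : (g S : ℝ) ≤ g (insert j (S.erase i)) + 1 := by exact_mod_cast a1
    have b2 : (g (insert j (S.erase i)) : ℝ) ≤ g S + 1 := by exact_mod_cast a2
    rw [abs_le]; constructor <;> linarith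
  have hN : (0 : ℝ) < (X.card.choose k : ℝ) := by exact_mod_cast Nat.choose_pos (by omega)
  set μ := (∑ S ∈ powersetCard k X, (g S : ℝ)) / (X.card.choose k : ℝ) with hμ
  have e0 : ∑ S ∈ powersetCard k X, (g S : ℝ) = (X.card.choose k : ℝ) * μ := by
    rw [hμ]; field_simp
  have hexp : (X.card : ℝ) * (ε / 16 * 1) ^ 2 - ε / 16 * (ε * k / 4) = -(ε ^ 2 * k / 128) := by
    rw [hX]; push_cast; ring
  have hεk : 0 < ε * k := by positivity
  rcases le_total (ε * k / 2) μ with hm | hm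
  · have t := low_tail 1 (ε / 16) (ε * k / 4) zero_le_one (by positivity) (by linarith) X k
      (fun S => (g S : ℝ)) μ (fun S _ i _ j _ _ => hlip S i j) e0 (ε * k / 4) (by linarith)
    rw [hexp, hX] at t
    refine le_trans ?_ t
    norm_cast
    refine card_le_card fun T hT => mem_filter.2 ⟨hI hT, ?_⟩
    have : g T ≤ (T \ T).card := inf'_le _ hT
    have : g T = 0 := by simpa using this
    rw [this]; push_cast; linarith
  · have t := low_tail 1 (ε / 16) (ε * k / 4) zero_le_one (by positivity) (by linarith) X k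
      (fun S => -(g S : ℝ)) (-μ) (fun S _ i _ j _ _ => by
        rw [neg_sub_neg, abs_sub_comm]; exact hlip S i j)
      (by rw [sum_neg_distrib, e0]; ring) (-(3 * (ε * k) / 4)) (by linarith)
    rw [hexp, hX] at t
    refine le_trans ?_ t
    norm_cast
    refine card_le_card_of_injOn (fun u => X \ u) (fun u hu => ?_) (fun u hu v hv e => ?_)
    · obtain ⟨u1, u2⟩ := mem_powersetCard.1 (hI hu)
      refine mem_coe.2 (mem_filter.2 ⟨mem_powersetCard.2 ⟨sdiff_subset, ?_⟩, ?_⟩)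
      · rw [card_sdiff_of_subset u1]; omega
      · obtain ⟨T, hT, e⟩ := exists_mem_eq_inf' hne (fun T => ((X \ u) \ T).card)
        have a4 : g (X \ u) = ((X \ u) \ T).card := e
        obtain ⟨v1, v2⟩ := mem_powersetCard.1 (hI hT)
        have a5 : (X \ u) \ T = X \ (u ∪ T) := by rw [sdiff_sdiff_left, sup_eq_union]
        have a6 := card_union_add_card_inter u T
        have a7 := card_sdiff_add_card_eq_card (union_subset u1 v1)
        have a8 : g (X \ u) = (u ∩ T).card := by rw [a4, a5]; omega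
        have := h u hu T hT
        rw [a8]; push_cast; linarith
    · have u1 := (mem_powersetCard.1 (hI hu)).1
      have v1 := (mem_powersetCard.1 (hI hv)).1
      rw [← Finset.sdiff_sdiff_eq_self u1, ← Finset.sdiff_sdiff_eq_self v1]
      exact congrArg (fun s => X \ s) e

theorem lower (c ε : ℝ) (hc : c ≤ 1 / 2) (hε : 0 < ε) (hε1 : ε ≤ 1) (n m : ℕ) (hm : 4 ≤ m)
    (hn : 4 * Real.log m ≤ ε * n) : (m : ℝ) ^ (ε ^ 2 / 200) / 2 ≤ chiStar n m c ε := by
  classical
  set k := Nat.log 4 m with hk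
  have k1 : 4 ^ k ≤ m := Nat.pow_log_le_self 4 (by omega)
  have k2 : m < 4 ^ (k + 1) := Nat.lt_pow_succ_log_self (by norm_num) m
  have k0 : 0 < k := Nat.log_pos (by norm_num) hm
  have hmR : (4 : ℝ) ≤ m := by exact_mod_cast hm
  have l4 : Real.log 4 = 2 * Real.log 2 := by
    rw [show (4 : ℝ) = 2 ^ 2 by norm_num, Real.log_pow]; norm_num
  have l2 := Real.log_two_gt_d9
  have l3 := Real.log_two_lt_d9
  have kR : (1 : ℝ) ≤ k := by exact_mod_cast k0
  have k3 : (k : ℝ) ≤ Real.log m := by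
    have : Real.log ((4 : ℝ) ^ k) ≤ Real.log m :=
      Real.log_le_log (by positivity) (by exact_mod_cast k1)
    rw [Real.log_pow, l4] at this
    nlinarith
  have k4 : Real.log m ≤ (k + 1) * (3 / 2) := by
    have : Real.log m ≤ Real.log ((4 : ℝ) ^ (k + 1)) :=
      Real.log_le_log (by positivity) (by exact_mod_cast k2.le)
    rw [Real.log_pow, l4] at this
    push_cast at this
    nlinarith
  have n1 : 4 * (k : ℝ) ≤ ε * n := by linarith
  have n2 : 4 * k ≤ n := by
    have : (0 : ℝ) ≤ n := by positivity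
    have : 4 * (k : ℝ) ≤ n := by nlinarith
    exact_mod_cast this
  set q := (n - 1) / (2 * k) with hq
  set r := (n - 1) % (2 * k) + 1 with hr
  have q1 : 2 * k * q + r = n := by
    have := Nat.div_add_mod (n - 1) (2 * k)
    rw [← hq] at this
    omega
  have q2 : r ≤ 2 * k := Nat.mod_lt _ (by omega)
  have q3 : 0 < q := Nat.div_pos (by omega) (by omega)
  have hcard : Fintype.card ((Fin (2 * k) × Fin q) ⊕ Fin r) = n := by simp [q1]
  set e := Fintype.equivFinOfCardEq hcard with he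
  set B : Finset (Fin (2 * k)) → Finset (Fin n) :=
    fun u => ((u ×ˢ (univ : Finset (Fin q))).disjSum (univ : Finset (Fin r))).map e.toEmbedding
    with hB
  have B1 : ∀ u, (B u).card = u.card * q + r := by
    intro u; simp [hB]
  have B2 : ∀ u v, B u ∩ B v = B (u ∩ v) := by
    intro u v
    ext x
    obtain ⟨y, rfl⟩ := e.surjective x
    rcases y with ⟨a, b⟩ | y <;> simp [hB]
  set Ω := powersetCard k (univ : Finset (Fin (2 * k))) with hΩ
  have hΩc : Ω.card = (2 * k).choose k := by simp [hΩ]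
  have hΩm : Fintype.card Ω ≤ Fintype.card (Fin m) := by
    rw [Fintype.card_coe, hΩc, Fintype.card_fin]
    refine le_trans ?_ k1
    rw [show 4 ^ k = 2 ^ (2 * k) by rw [pow_mul]; norm_num]
    exact Nat.choose_le_two_pow _ _
  have hΩne : Nonempty Ω := by
    rw [← Fintype.card_pos_iff, Fintype.card_coe, hΩc]
    exact Nat.choose_pos (by omega)
  obtain ⟨s⟩ := Function.Embedding.nonempty_of_card_le hΩm
  set A : Fin m → Finset (Fin n) := fun i => B (Function.invFun s i).1 with hA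
  have A1 : ∀ u : Ω, A (s u) = B u.1 := fun u => by
    simp only [hA, Function.leftInverse_invFun s.injective u]
  have q4 : 2 * (k : ℝ) * q + r = n := by exact_mod_cast q1
  have r1 : (1 : ℝ) ≤ r := by exact_mod_cast (by omega : 1 ≤ r)
  have r2 : (r : ℝ) ≤ 2 * k := by exact_mod_cast q2
  have qR : (0 : ℝ) < q := by exact_mod_cast q3
  have A2 : ∀ i, c * n < ((A i).card : ℝ) := by
    intro i
    simp only [hA]
    rw [B1, (mem_powersetCard.1 (Function.invFun s i).2).2]
    push_cast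
    have : (0 : ℝ) ≤ n := by positivity
    nlinarith
  have hle : (G A ε).chromaticNumber.toNat ≤ chiStar n m c ε :=
    le_sup (f := fun A => (G A ε).chromaticNumber.toNat) (mem_filter.2 ⟨mem_univ A, A2⟩)
  set χ := (G A ε).chromaticNumber.toNat with hχ
  obtain ⟨col⟩ : (G A ε).Colorable χ := SimpleGraph.colorable_chromaticNumber_of_fintype _
  have hcl : ∀ a : Fin χ, (((univ.filter (fun u : Ω => col (s u) = a)).image Subtype.val).card : ℝ)
      ≤ ((2 * k).choose k : ℝ) * Real.exp (-(ε ^ 2 * k / 128)) := by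
    intro a
    refine kneser univ k k0 (by simp) ε hε hε1 _ ?_ ?_
    · intro u hu
      obtain ⟨w, _, rfl⟩ := mem_image.1 hu
      exact w.2
    · intro u hu v hv
      obtain ⟨w, hw, rfl⟩ := mem_image.1 hu
      obtain ⟨z, hz, rfl⟩ := mem_image.1 hv
      by_cases hwz : w = z
      · subst hwz
        rw [inter_self, (mem_powersetCard.1 w.2).2]
        nlinarith
      · by_contra hlt
        push Not at hlt
        refine col.valid (v := s w) (w := s z) ⟨fun h => hwz (s.injective h), ?_⟩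
          ((mem_filter.1 hw).2.trans (mem_filter.1 hz).2.symm)
        rw [A1, A1, B2, B1]
        push_cast
        have : ((w.1 ∩ z.1).card : ℝ) * q < ε * k * q := by gcongr
        nlinarith
  have hsum : (((2 * k).choose k : ℕ) : ℝ) ≤
      χ * (((2 * k).choose k : ℝ) * Real.exp (-(ε ^ 2 * k / 128))) := by
    have a1 : (univ : Finset Ω).card =
        ∑ a : Fin χ, (univ.filter (fun u : Ω => col (s u) = a)).card :=
      card_eq_sum_card_fiberwise fun _ _ => mem_univ _
    rw [card_univ, Fintype.card_coe, hΩc] at a1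
    calc _ = ∑ a : Fin χ, ((univ.filter (fun u : Ω => col (s u) = a)).card : ℝ) := by
          exact_mod_cast a1
      _ ≤ ∑ _a : Fin χ, ((2 * k).choose k : ℝ) * Real.exp (-(ε ^ 2 * k / 128)) := by
          refine sum_le_sum fun a _ => ?_
          have := hcl a
          rwa [card_image_of_injective _ Subtype.val_injective] at this
      _ = _ := by rw [sum_const, card_univ, Fintype.card_fin, nsmul_eq_mul]
  have hN : (0 : ℝ) < ((2 * k).choose k : ℕ) := by exact_mod_cast Nat.choose_pos (by omega)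
  have h1 : Real.exp (ε ^ 2 * k / 128) ≤ χ := by
    have : 1 ≤ χ * Real.exp (-(ε ^ 2 * k / 128)) := by
      refine le_of_mul_le_mul_left ?_ hN
      linarith
    rwa [Real.exp_neg, ← div_eq_mul_inv, one_le_div (Real.exp_pos _)] at this
  have h2 : (m : ℝ) ^ (ε ^ 2 / 200) ≤ 2 * Real.exp (ε ^ 2 * k / 128) := by
    rw [Real.rpow_def_of_pos (by linarith)]
    have e2 : ε ^ 2 ≤ 1 := by nlinarith
    have e3 : 0 < ε ^ 2 := by positivity
    calc _ ≤ Real.exp (Real.log 2 + ε ^ 2 * k / 128) := by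
          refine Real.exp_le_exp.2 ?_
          have : Real.log m * (ε ^ 2 / 200) ≤ (k + 1) * (3 / 2) * (ε ^ 2 / 200) := by gcongr
          nlinarith
      _ = _ := by rw [Real.exp_add, Real.exp_log (by norm_num)]
  have h3 : (χ : ℝ) ≤ chiStar n m c ε := by exact_mod_cast hle
  linarith

theorem result :
    (∀ c ε : ℝ, 0 < c → c < 1 → 0 < ε → ε ≤ c ^ 2 → ∃ K : ℝ, 0 < K ∧ ∀ n m : ℕ,
      (chiStar n m c ε : ℝ) ≤ K * (m : ℝ) ^ (Real.log (1 / c) / Real.log (c / ε))) ∧
    (∀ c ε : ℝ, c ≤ 1 / 2 → 0 < ε → ε ≤ 1 → ∀ n m : ℕ, 4 ≤ m → 4 * Real.log m ≤ ε * n →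
      (m : ℝ) ^ (ε ^ 2 / 200) / 2 ≤ chiStar n m c ε) ∧
    (∀ c ε : ℝ, 0 < c → c < 1 → 0 < ε → ε ≤ c ^ 3 → ∃ C : ℝ, ∀ n : ℕ, 1 ≤ n →
      (chiStar n n c ε : ℝ) < C * (n : ℝ) ^ (1 / 2 : ℝ)) ∧
    (∀ c ε : ℝ, c ≤ 1 / 2 → 0 < ε → ε ≤ 1 → ∀ c₁ c₂ : ℝ, ∃ n₀ : ℕ, ∀ n : ℕ, n₀ ≤ n →
      c₁ * Real.log n ^ c₂ ≤ chiStar n n c ε) := by
  refine ⟨upper, lower, fun c ε hc hc1 hε hεc => ?_, fun c ε hc hε hε1 c₁ c₂ => ?_⟩
  · have hc3 : c ^ 3 ≤ c ^ 2 := by nlinarith [sq_nonneg c]
    obtain ⟨K, hK, h⟩ := upper c ε hc hc1 hε (hεc.trans hc3)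
    refine ⟨K + 1, fun n hn => (h n n).trans_lt ?_⟩
    have hnR : (1 : ℝ) ≤ n := by exact_mod_cast hn
    have h1 : 1 < c / ε := by rw [one_lt_div hε]; nlinarith
    have h2 : 0 < Real.log (c / ε) := Real.log_pos h1
    have h5 : 2 * Real.log (1 / c) ≤ Real.log (c / ε) := by
      have : Real.log ((1 / c) ^ 2) ≤ Real.log (c / ε) := by
        refine Real.log_le_log (by positivity) ?_
        rw [div_pow, div_le_div_iff₀ (by positivity) hε]; nlinarith
      rwa [Real.log_pow] at this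
    have h6 : (n : ℝ) ^ (Real.log (1 / c) / Real.log (c / ε)) ≤ (n : ℝ) ^ (1 / 2 : ℝ) :=
      Real.rpow_le_rpow_of_exponent_le hnR (by rw [div_le_iff₀ h2]; linarith)
    have h7 : 0 < (n : ℝ) ^ (1 / 2 : ℝ) := by positivity
    nlinarith
  · have hγ : 0 < ε ^ 2 / 200 := by positivity
    have a1 := (isLittleO_log_rpow_rpow_atTop c₂ hγ).bound
      (c := 1 / (2 * (|c₁| + 1))) (by positivity)
    have a2 := Real.isLittleO_log_id_atTop.bound (c := ε / 4) (by positivity)
    have a3 := (tendsto_natCast_atTop_atTop (R := ℝ)).eventually (a1.and a2)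
    obtain ⟨n₀, hn₀⟩ := Filter.eventually_atTop.1 a3
    refine ⟨max n₀ 4, fun n hn => ?_⟩
    obtain ⟨b1, b2⟩ := hn₀ n (le_trans (le_max_left _ _) hn)
    have hn4 : 4 ≤ n := le_trans (le_max_right _ _) hn
    have hnR : (4 : ℝ) ≤ n := by exact_mod_cast hn4
    have l0 : 0 ≤ Real.log n := Real.log_nonneg (by linarith)
    have l1 : 0 ≤ Real.log n ^ c₂ := Real.rpow_nonneg l0 _
    have l2 : 0 ≤ (n : ℝ) ^ (ε ^ 2 / 200) := by positivity
    rw [Real.norm_of_nonneg l1, Real.norm_of_nonneg l2] at b1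
    rw [Real.norm_of_nonneg l0, id, Real.norm_of_nonneg (by linarith)] at b2
    refine le_trans ?_ (lower c ε hc hε hε1 n n hn4 (by linarith))
    have b3 : (|c₁| + 1) * Real.log n ^ c₂ ≤ (n : ℝ) ^ (ε ^ 2 / 200) / 2 := by
      calc _ ≤ (|c₁| + 1) * (1 / (2 * (|c₁| + 1)) * (n : ℝ) ^ (ε ^ 2 / 200)) := by gcongr
        _ = _ := by field_simp
    have := le_abs_self c₁
    nlinarith

end Pool.Agent.Results.MP_3a192b_co.Growth
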